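import Mathlib

/-!
# Cochains on lists: coboundary, products, subdivision, and the evaluation congruence
-/

set_option autoImplicit false

namespace Pool.Agent.helper69.LensC

variable {X : Type*}

/-- The simplicial coboundary of a function on lists of vertices. -/
def dl : (List X → ℤ) → List X → ℤ
  | _, [] => 0
  | u, a :: l => u l - dl (fun l' => u (a :: l')) l

theorem dl_nil (u : List X → ℤ) : dl u [] = 0 := rfl

theorem dl_cons (u : List X → ℤ) (a : X) (l : List X) :
    dl u (a :: l) = u l - dl (fun l' => u (a :: l')) l := rfl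

theorem dl_add (l : List X) : ∀ u v : List X → ℤ,
    dl (fun l => u l + v l) l = dl u l + dl v l := by
  induction l with
  | nil => intro u v; simp [dl_nil]
  | cons a l ih =>
    intro u v
    rw [dl_cons, dl_cons, dl_cons, ih]
    ring

theorem dl_sub (l : List X) : ∀ u v : List X → ℤ,
    dl (fun l => u l - v l) l = dl u l - dl v l := by
  induction l with
  | nil => intro u v; simp [dl_nil]
  | cons a l ih =>
    intro u v
    rw [dl_cons, dl_cons, dl_cons, ih]
    ring

theorem dl_mul (k : ℤ) (l : List X) : ∀ u : List X → ℤ,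
    dl (fun l => k * u l) l = k * dl u l := by
  induction l with
  | nil => intro u; simp [dl_nil]
  | cons a l ih =>
    intro u
    rw [dl_cons, dl_cons, ih]
    ring

theorem dl_congr (l : List X) : ∀ u v : List X → ℤ,
    (∀ l', l'.Sublist l → l'.length + 1 = l.length → u l' = v l') → dl u l = dl v l := by
  induction l with
  | nil => intro u v _; rfl
  | cons a l ih =>
    intro u v h
    rw [dl_cons, dl_cons, h l (List.sublist_cons_self a l) rfl]
    congr 1
    apply ih
    intro l' h1 h2
    exact h (a :: l') (h1.cons_cons a) (by simp [← h2])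

theorem dl_zero (l : List X) : dl (fun _ => (0 : ℤ)) l = 0 := by
  induction l with
  | nil => rfl
  | cons a l ih => rw [dl_cons, ih]; rfl

theorem dl_eq_zero (l : List X) (u : List X → ℤ)
    (h : ∀ l', l'.Sublist l → l'.length + 1 = l.length → u l' = 0) : dl u l = 0 := by
  rw [dl_congr l u (fun _ => 0) h, dl_zero]

theorem dl_map (g : X → X) (l : List X) : ∀ u : List X → ℤ,
    dl (fun l => u (l.map g)) l = dl u (l.map g) := by
  induction l with
  | nil => intro u; rfl
  | cons a l ih =>
    intro u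
    rw [List.map_cons, dl_cons, dl_cons, ← ih]
    rfl

theorem dl_dl (l : List X) : ∀ u : List X → ℤ, dl (dl u) l = 0 := by
  induction l with
  | nil => intro u; rfl
  | cons a l ih =>
    intro u
    rw [dl_cons]
    have h : (fun l' => dl u (a :: l')) = fun l' => u l' - dl (fun l'' => u (a :: l'')) l' := rfl
    rw [h, dl_sub, ih]
    ring

/-! ### Subdivision -/

/-- barycentric subdivision, dual form, with fuel `n` = number of vertices -/
def sd (β : List X → X) : ℕ → (List X → ℤ) → List X → ℤ
  | 0, u, l => u l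
  | n + 1, u, l => dl (sd β n (fun l' => u (β l :: l'))) l

theorem sd_zero (β : List X → X) (u : List X → ℤ) (l : List X) : sd β 0 u l = u l := rfl

theorem sd_succ (β : List X → X) (n : ℕ) (u : List X → ℤ) (l : List X) :
    sd β (n + 1) u l = dl (sd β n (fun l' => u (β l :: l'))) l := rfl

theorem sd_add (β : List X → X) (n : ℕ) : ∀ (u v : List X → ℤ) (l : List X),
    sd β n (fun l => u l + v l) l = sd β n u l + sd β n v l := by
  induction n with
  | zero => intro u v l; rfl
  | succ n ih =>
    intro u v l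
    rw [sd_succ, sd_succ, sd_succ, ← dl_add]
    congr 1
    funext l'
    exact ih _ _ _

theorem sd_sub (β : List X → X) (n : ℕ) : ∀ (u v : List X → ℤ) (l : List X),
    sd β n (fun l => u l - v l) l = sd β n u l - sd β n v l := by
  induction n with
  | zero => intro u v l; rfl
  | succ n ih =>
    intro u v l
    rw [sd_succ, sd_succ, sd_succ, ← dl_sub]
    congr 1
    funext l'
    exact ih _ _ _

theorem sd_congr (β : List X → X) (n : ℕ) : ∀ (u v : List X → ℤ) (l : List X), l.length = n →
    (∀ l', l'.length = n → u l' = v l') → sd β n u l = sd β n v l := by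
  induction n with
  | zero => intro u v l hl h; exact h l hl
  | succ n ih =>
    intro u v l hl h
    rw [sd_succ, sd_succ]
    apply dl_congr
    intro l' _ h2
    apply ih
    · omega
    · intro l'' h3
      exact h _ (by simp [h3])

theorem sd_map (β : List X → X) (g : X → X) (hβ : ∀ l, l ≠ [] → β (l.map g) = g (β l)) (n : ℕ) :
    ∀ (u : List X → ℤ) (l : List X), l.length = n →
    sd β n (fun l => u (l.map g)) l = sd β n u (l.map g) := by
  induction n with
  | zero => intro u l _; rfl
  | succ n ih =>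
    intro u l hl
    have hne : l ≠ [] := by
      rintro rfl
      simp at hl
    rw [sd_succ, sd_succ, hβ l hne, ← dl_map]
    apply dl_congr
    intro l' _ h2
    rw [← ih (fun l'' => u (g (β l) :: l'')) l' (by omega)]
    rfl

theorem sd_dl (β : List X → X) (n : ℕ) : ∀ (u : List X → ℤ) (l : List X), l.length = n + 1 →
    dl (sd β n u) l = sd β (n + 1) (dl u) l := by
  induction n with
  | zero =>
    intro u l hl
    rw [sd_succ]
    obtain ⟨a, rfl⟩ := List.length_eq_one_iff.mp hl
    simp [dl_cons, dl_nil, sd_zero]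
  | succ n ih =>
    intro u l hl
    rw [sd_succ β (n + 1)]
    have h : (fun l' => dl u (β l :: l')) = fun l' => u l' - dl (fun l'' => u (β l :: l'')) l' := rfl
    rw [h]
    have h2 : sd β (n + 1) (fun l' => u l' - dl (fun l'' => u (β l :: l'')) l') =
        fun l' => sd β (n + 1) u l' - sd β (n + 1) (dl (fun l'' => u (β l :: l''))) l' := by
      funext l'
      exact sd_sub β (n + 1) _ _ _
    rw [h2, dl_sub]
    have h3 : dl (sd β (n + 1) (dl (fun l'' => u (β l :: l'')))) l =
        dl (dl (sd β n (fun l'' => u (β l :: l'')))) l := by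
      apply dl_congr
      intro l' _ h4
      rw [ih _ _ (by omega)]
    rw [h3, dl_dl]
    ring

/-- The subdivision operator on cochains. -/
def S (β : List X → X) (u : List X → ℤ) : List X → ℤ := fun l => sd β l.length u l

theorem S_dl (β : List X → X) (u : List X → ℤ) : S β (dl u) = dl (S β u) := by
  funext l
  rcases l with _ | ⟨a, l⟩
  · rfl
  · unfold S
    rw [List.length_cons, ← sd_dl β l.length u (a :: l) rfl]
    apply dl_congr
    intro l' _ h
    have : l'.length = l.length := by simpa using h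
    rw [this]

theorem S_add (β : List X → X) (u v : List X → ℤ) : S β (u + v) = S β u + S β v := by
  funext l
  exact sd_add β _ u v l

theorem S_map (β : List X → X) (g : X → X) (hβ : ∀ l, l ≠ [] → β (l.map g) = g (β l))
    (u : List X → ℤ) : S β (fun l => u (l.map g)) = fun l => S β u (l.map g) := by
  funext l
  unfold S
  rw [sd_map β g hβ _ u l rfl, List.length_map]

theorem S_single (β : List X → X) (u : List X → ℤ) (x : X) : S β u [x] = u [β [x]] := by
  simp [S, sd_succ, sd_zero, dl_cons, dl_nil]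

/-- The subdivision operator as an additive map. -/
def SS (β : List X → X) : (List X → ℤ) →+ (List X → ℤ) where
  toFun := S β
  map_zero' := by
    funext l
    have h := congrFun (S_add β 0 0) l
    simp only [add_zero, Pi.add_apply] at h
    simp only [Pi.zero_apply]
    omega
  map_add' := S_add β

/-- iterated subdivision as an additive map -/
def SN (β : List X → X) : ℕ → ((List X → ℤ) →+ (List X → ℤ))
  | 0 => AddMonoidHom.id _
  | N + 1 => (SS β).comp (SN β N)

theorem SN_zero (β : List X → X) (u : List X → ℤ) : SN β 0 u = u := rfl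

theorem SN_succ (β : List X → X) (N : ℕ) (u : List X → ℤ) : SN β (N + 1) u = S β (SN β N u) := rfl

theorem SN_dl (β : List X → X) (N : ℕ) (u : List X → ℤ) : SN β N (dl u) = dl (SN β N u) := by
  induction N with
  | zero => rfl
  | succ N ih => rw [SN_succ, SN_succ, ih, S_dl]

theorem SN_map (β : List X → X) (g : X → X) (hβ : ∀ l, l ≠ [] → β (l.map g) = g (β l)) (N : ℕ)
    (u : List X → ℤ) : SN β N (fun l => u (l.map g)) = fun l => SN β N u (l.map g) := by
  induction N with
  | zero => rfl
  | succ N ih =>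
    rw [SN_succ, SN_succ, ih]
    exact S_map β g hβ (SN β N u)

/-! ### The cycles -/

/-- Evaluation on the join of the first `i` regular `q`-gons. -/
def F (q : ℕ) (g : X → X) (pt : ℕ → X) : ℕ → ((List X → ℤ) →+ ℤ)
  | 0 =>
    { toFun := fun w => w []
      map_zero' := rfl
      map_add' := fun _ _ => rfl }
  | i + 1 =>
    { toFun := fun w => ∑ a ∈ Finset.range q,
        F q g pt i (fun l => w (g^[a] (pt i) :: g^[a + 1] (pt i) :: l))
      map_zero' := by
        apply Finset.sum_eq_zero
        intro a _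
        exact map_zero (F q g pt i)
      map_add' := by
        intro u v
        rw [← Finset.sum_add_distrib]
        apply Finset.sum_congr rfl
        intro a _
        rw [← map_add]
        rfl }

theorem F_zero (q : ℕ) (g : X → X) (pt : ℕ → X) (w : List X → ℤ) : F q g pt 0 w = w [] := by
  simp [F]

theorem F_succ (q : ℕ) (g : X → X) (pt : ℕ → X) (i : ℕ) (w : List X → ℤ) :
    F q g pt (i + 1) w = ∑ a ∈ Finset.range q,
        F q g pt i (fun l => w (g^[a] (pt i) :: g^[a + 1] (pt i) :: l)) := by
  simp [F]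

theorem sum_shift (q : ℕ) (f : ℕ → ℤ) (h : f q = f 0) :
    ∑ a ∈ Finset.range q, f (a + 1) = ∑ a ∈ Finset.range q, f a := by
  have h1 := Finset.sum_range_succ f q
  have h2 := Finset.sum_range_succ' f q
  rw [h1] at h2
  omega

variable {q : ℕ} {g : X → X} {pt : ℕ → X}

theorem F_dl (hg : g^[q] = id) (i : ℕ) : ∀ w : List X → ℤ, F q g pt i (dl w) = 0 := by
  induction i with
  | zero => intro w; rw [F_zero]; rfl
  | succ i ih =>
    intro w
    rw [F_succ]
    have h : ∀ a, F q g pt i (fun l => dl w (g^[a] (pt i) :: g^[a + 1] (pt i) :: l)) =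
        F q g pt i (fun l => w (g^[a + 1] (pt i) :: l)) -
        F q g pt i (fun l => w (g^[a] (pt i) :: l)) := by
      intro a
      have h1 : (fun l => dl w (g^[a] (pt i) :: g^[a + 1] (pt i) :: l)) =
          (fun l => w (g^[a + 1] (pt i) :: l)) - (fun l => w (g^[a] (pt i) :: l)) +
          dl (fun l => w (g^[a] (pt i) :: g^[a + 1] (pt i) :: l)) := by
        funext l
        simp only [dl_cons, Pi.add_apply, Pi.sub_apply]
        ring
      rw [h1, map_add, map_sub, ih, add_zero]
    simp_rw [h]
    rw [Finset.sum_sub_distrib, sum_shift q (fun a => F q g pt i (fun l => w (g^[a] (pt i) :: l))),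
      sub_self]
    rw [hg]
    rfl

theorem F_map (hg : g^[q] = id) (i : ℕ) : ∀ w : List X → ℤ,
    F q g pt i (fun l => w (l.map g)) = F q g pt i w := by
  induction i with
  | zero => intro w; rw [F_zero, F_zero]; rfl
  | succ i ih =>
    intro w
    rw [F_succ, F_succ]
    have h : ∀ a, F q g pt i (fun l => w ((g^[a] (pt i) :: g^[a + 1] (pt i) :: l).map g)) =
        F q g pt i (fun l => w (g^[a + 1] (pt i) :: g^[a + 1 + 1] (pt i) :: l)) := by
      intro a
      rw [← ih (fun l => w (g^[a + 1] (pt i) :: g^[a + 1 + 1] (pt i) :: l))]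
      congr 1
      funext l
      simp only [List.map_cons, Function.iterate_succ_apply']
    simp_rw [h]
    apply sum_shift q
      (fun a => F q g pt i (fun l => w (g^[a] (pt i) :: g^[a + 1] (pt i) :: l)))
    have : g^[q + 1] = g := by
      rw [Function.iterate_succ', hg]; rfl
    rw [hg, this]
    rfl

/-- even evaluation -/
def evE (q : ℕ) (g : X → X) (pt : ℕ → X) (i : ℕ) : (List X → ℤ) →+ ℤ where
  toFun u := F q g pt i (fun l => u (pt i :: l))
  map_zero' := map_zero (F q g pt i)
  map_add' u v := by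
    rw [← map_add]
    rfl

/-- odd evaluation -/
def evO (q : ℕ) (g : X → X) (pt : ℕ → X) (i : ℕ) : (List X → ℤ) →+ ℤ where
  toFun u := F q g pt i (fun l => u (pt i :: g (pt i) :: l))
  map_zero' := map_zero (F q g pt i)
  map_add' u v := by
    rw [← map_add]
    rfl

theorem evE_apply (i : ℕ) (u : List X → ℤ) :
    evE q g pt i u = F q g pt i (fun l => u (pt i :: l)) := rfl

theorem evO_apply (i : ℕ) (u : List X → ℤ) :
    evO q g pt i u = F q g pt i (fun l => u (pt i :: g (pt i) :: l)) := rfl

theorem evE_dl (hg : g^[q] = id) (i : ℕ) (u : List X → ℤ) (hu : ∀ l, u (l.map g) = u l) :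
    evE q g pt (i + 1) (dl u) = q * evO q g pt i u := by
  rw [evE_apply]
  have h1 : (fun l => dl u (pt (i + 1) :: l)) = u - dl (fun l => u (pt (i + 1) :: l)) := by
    funext l
    rfl
  rw [h1, map_sub, F_dl hg, sub_zero, F_succ]
  have h2 : ∀ a, F q g pt i (fun l => u (g^[a] (pt i) :: g^[a + 1] (pt i) :: l)) =
      evO q g pt i u := by
    intro a
    induction a with
    | zero => rfl
    | succ a ih =>
      rw [← ih, ← F_map hg i (fun l => u (g^[a + 1] (pt i) :: g^[a + 1 + 1] (pt i) :: l))]
      congr 1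
      funext l
      rw [← hu (g^[a] (pt i) :: g^[a + 1] (pt i) :: l)]
      simp only [List.map_cons, Function.iterate_succ_apply']
  simp_rw [h2]
  simp

theorem evO_dl (hg : g^[q] = id) (i : ℕ) (u : List X → ℤ) :
    evO q g pt i (dl u) = evE q g pt i (fun l => u (l.map g)) - evE q g pt i u := by
  rw [evO_apply, evE_apply, evE_apply]
  have h1 : (fun l => dl u (pt i :: g (pt i) :: l)) =
      (fun l => u (g (pt i) :: l)) - (fun l => u (pt i :: l)) +
      dl (fun l => u (pt i :: g (pt i) :: l)) := by
    funext l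
    simp only [dl_cons, Pi.add_apply, Pi.sub_apply]
    ring
  rw [h1, map_add, map_sub, F_dl hg, add_zero, ← F_map hg i (fun l => u (g (pt i) :: l))]
  rfl

/-! ### Products -/

/-- the constant 0-cochain `1` -/
def one : List X → ℤ
  | [_] => 1
  | _ => 0

/-- product with a 0-cochain -/
def M0 (f : X → ℤ) (v : List X → ℤ) : List X → ℤ
  | [] => 0
  | x :: l => f x * v (x :: l)

/-- product with a 1-cochain -/
def M1 (t : X → X → ℤ) (v : List X → ℤ) : List X → ℤ
  | x :: y :: l => t x y * v (y :: l)
  | _ => 0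

/-- product with a 2-cochain -/
def M2 (e : X → X → X → ℤ) (v : List X → ℤ) : List X → ℤ
  | x :: y :: z :: l => e x y z * v (z :: l)
  | _ => 0

/-- coboundary of a 1-cochain -/
def d1 (t : X → X → ℤ) : X → X → X → ℤ := fun x y z => t y z - t x z + t x y

theorem dl_one (l : List X) : dl (one (X := X)) l = 0 := by
  rcases l with _ | ⟨x, _ | ⟨y, _ | ⟨z, l⟩⟩⟩
  · rfl
  · simp [dl_cons, dl_nil, one]
  · simp [dl_cons, dl_nil, one]
  · have h : dl (fun _ : List X => (0 : ℤ)) l = 0 := dl_zero l
    simp only [dl_cons, one, h]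
    ring

theorem dl_M0 (f : X → ℤ) (v : List X → ℤ) (hv : v [] = 0) (l : List X) :
    dl (M0 f v) l = M1 (fun x y => f y - f x) v l + M0 f (dl v) l := by
  rcases l with _ | ⟨x, _ | ⟨y, l⟩⟩
  · rfl
  · simp [dl_cons, dl_nil, M0, M1, hv]
  · rw [dl_cons]
    have h : dl (fun l' => M0 f v (x :: l')) (y :: l) = f x * dl (fun l' => v (x :: l')) (y :: l) := by
      rw [← dl_mul]
      rfl
    rw [h]
    simp only [M0, M1]
    rw [dl_cons v x]
    ring

theorem dl_M1 (t : X → X → ℤ) (v : List X → ℤ) (hv : v [] = 0) (l : List X) :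
    dl (M1 t v) l = M2 (d1 t) v l - M1 t (dl v) l := by
  rcases l with _ | ⟨x, l⟩
  · rfl
  · rw [dl_cons]
    have h : (fun l' => M1 t v (x :: l')) = M0 (t x) v := by
      funext l'
      rcases l' with _ | ⟨y, l'⟩ <;> rfl
    rw [h, dl_M0 _ _ hv]
    rcases l with _ | ⟨y, _ | ⟨z, l⟩⟩
    · simp [M0, M1, M2]
    · simp [M0, M1, M2]
    · simp only [M0, M1, M2, d1]
      ring

theorem M0_one (v : List X → ℤ) (hv : v [] = 0) : M0 (fun _ => 1) v = v := by
  funext l
  rcases l with _ | ⟨x, l⟩
  · exact hv.symm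
  · simp [M0]

theorem M0_sub (f f' : X → ℤ) (v : List X → ℤ) :
    M0 (fun x => f x - f' x) v = M0 f v - M0 f' v := by
  funext l
  rcases l with _ | ⟨x, l⟩
  · rfl
  · simp only [M0, Pi.sub_apply]; ring

theorem M0_mul (k : ℤ) (f : X → ℤ) (v : List X → ℤ) :
    M0 (fun x => k * f x) v = k • M0 f v := by
  funext l
  rcases l with _ | ⟨x, l⟩
  · simp [M0]
  · simp only [M0, Pi.smul_apply, smul_eq_mul]; ring

theorem M1_add (t t' : X → X → ℤ) (v : List X → ℤ) :
    M1 (fun x y => t x y + t' x y) v = M1 t v + M1 t' v := by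
  funext l
  rcases l with _ | ⟨x, _ | ⟨y, l⟩⟩
  · rfl
  · rfl
  · simp only [M1, Pi.add_apply]; ring

theorem M1_sub (t t' : X → X → ℤ) (v : List X → ℤ) :
    M1 (fun x y => t x y - t' x y) v = M1 t v - M1 t' v := by
  funext l
  rcases l with _ | ⟨x, _ | ⟨y, l⟩⟩
  · rfl
  · rfl
  · simp only [M1, Pi.sub_apply]; ring

theorem M1_mul (k : ℤ) (t : X → X → ℤ) (v : List X → ℤ) :
    M1 (fun x y => k * t x y) v = k • M1 t v := by
  funext l
  rcases l with _ | ⟨x, _ | ⟨y, l⟩⟩
  · simp [M1]
  · simp [M1]
  · simp only [M1, Pi.smul_apply, smul_eq_mul]; ring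

theorem M1_inv (t : X → X → ℤ) (v : List X → ℤ) (ht : ∀ x y, t (g x) (g y) = t x y)
    (hv : ∀ l, v (l.map g) = v l) (l : List X) : M1 t v (l.map g) = M1 t v l := by
  rcases l with _ | ⟨x, _ | ⟨y, l⟩⟩
  · rfl
  · rfl
  · have := hv (y :: l)
    simp only [List.map_cons] at this
    simp only [M1, List.map_cons, ht, this]

theorem M2_inv (e : X → X → X → ℤ) (v : List X → ℤ)
    (he : ∀ x y z, e (g x) (g y) (g z) = e x y z)
    (hv : ∀ l, v (l.map g) = v l) (l : List X) : M2 e v (l.map g) = M2 e v l := by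
  rcases l with _ | ⟨x, _ | ⟨y, _ | ⟨z, l⟩⟩⟩
  · rfl
  · rfl
  · rfl
  · have := hv (z :: l)
    simp only [List.map_cons] at this
    simp only [M2, List.map_cons, he, this]

/-- An evaluation system: the values of cochains on a chain map from the standard resolution of the
cyclic group of order `q`. -/
structure Ev (q : ℕ) (g : X → X) where
  /-- even part -/
  E : ℕ → ((List X → ℤ) →+ ℤ)
  /-- odd part -/
  O : ℕ → ((List X → ℤ) →+ ℤ)
  E_one : E 0 one = 1
  E_dl : ∀ i u, (∀ l, u (l.map g) = u l) → E (i + 1) (dl u) = q * O i u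
  O_dl : ∀ i u, O i (dl u) = E i (fun l => u (l.map g)) - E i u

/-- The evaluation system of iterated subdivisions of the joins of `q`-gons. -/
def Ev.sub (hg : g^[q] = id) (pt : ℕ → X) (β : List X → X)
    (hβ : ∀ l, l ≠ [] → β (l.map g) = g (β l)) (N : ℕ) : Ev q g where
  E i := (evE q g pt i).comp (SN β N)
  O i := (evO q g pt i).comp (SN β N)
  E_one := by
    simp only [AddMonoidHom.comp_apply]
    rw [evE_apply, F_zero]
    have h : ∀ N x, SN β N one [x] = 1 := by
      intro N
      induction N with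
      | zero => intro x; rfl
      | succ N ih =>
        intro x
        rw [SN_succ, S_single]
        exact ih _
    exact h N _
  E_dl := by
    intro i u hu
    simp only [AddMonoidHom.comp_apply]
    rw [SN_dl, evE_dl hg]
    have h := SN_map β g hβ N u
    have h2 : (fun l => u (l.map g)) = u := by funext l; exact hu l
    rw [h2] at h
    intro l
    exact (congrFun h l).symm
  O_dl := by
    intro i u
    simp only [AddMonoidHom.comp_apply]
    rw [SN_dl, evO_dl hg, SN_map β g hβ N u]

/-! ### The congruence -/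

section main

variable (ev : Ev q g) (b : X → ℤ) (h : X → X → ℤ)

/-- Product with `d1 h`, `h` the carry cochain of `b`: multiplication by the generator. -/
theorem step_h (hq : q ≠ 0) (hb : ∀ x, (q : ℤ) ∣ b (g x) - b x - 1)
    (hc : ∀ x y, b (g y) - b (g x) + q * h (g x) (g y) = b y - b x + q * h x y)
    (v : List X → ℤ) (hv : v [] = 0) (hv1 : ∀ l, dl v l = 0) (hv2 : ∀ l, v (l.map g) = v l)
    (i : ℕ) : (q : ℤ) ∣ ev.E (i + 1) (M2 (d1 h) v) - ev.E i v := by
  have hdv : dl v = 0 := by funext l; exact hv1 l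
  -- `M2 (d1 h) v = dl (M1 h v)`
  have e1 : M2 (d1 h) v = dl (M1 h v) := by
    funext l
    rw [dl_M1 h v hv, hdv]
    have : M1 h (0 : List X → ℤ) l = 0 := by
      rcases l with _ | ⟨x, _ | ⟨y, l⟩⟩ <;> simp [M1]
    rw [this, sub_zero]
  have e2 : M1 (fun x y => b y - b x) v = dl (M0 b v) := by
    funext l
    rw [dl_M0 b v hv, hdv]
    have : M0 b (0 : List X → ℤ) l = 0 := by
      rcases l with _ | ⟨x, l⟩ <;> simp [M0]
    rw [this, add_zero]
  -- the invariant cochain `c`
  set c : X → X → ℤ := fun x y => b y - b x + q * h x y with hcdef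
  have e3 : M1 c v = M1 (fun x y => b y - b x) v + (q : ℤ) • M1 h v := by
    rw [hcdef, M1_add (fun x y => b y - b x) (fun x y => q * h x y) v, M1_mul]
  have hinv : ∀ l, M1 c v (l.map g) = M1 c v l := M1_inv c v hc hv2
  have e4 : dl (M1 c v) = (q : ℤ) • dl (M1 h v) := by
    funext l
    rw [e3, e2]
    have := dl_add l (dl (M0 b v)) ((q : ℤ) • M1 h v)
    rw [dl_dl, zero_add] at this
    have h5 := dl_mul (q : ℤ) l (M1 h v)
    exact this.trans h5
  have e5 : (q : ℤ) * ev.E (i + 1) (M2 (d1 h) v) = q * ev.O i (M1 c v) := by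
    rw [← ev.E_dl i _ hinv, e4, map_zsmul, e1, smul_eq_mul]
  have hq' : (q : ℤ) ≠ 0 := by exact_mod_cast hq
  have e6 : ev.E (i + 1) (M2 (d1 h) v) = ev.O i (M1 c v) := mul_left_cancel₀ hq' e5
  rw [e6, e3, map_add, map_zsmul, e2, ev.O_dl]
  have e7 : (fun l => M0 b v (l.map g)) = M0 (fun x => b (g x)) v := by
    funext l
    rcases l with _ | ⟨x, l⟩
    · rfl
    · have := hv2 (x :: l)
      simp only [List.map_cons] at this
      simp only [M0, List.map_cons, this]
  choose w hw using hb
  have e8 : M0 (fun x => b (g x)) v = M0 b v + (v + (q : ℤ) • M0 w v) := by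
    funext l
    rcases l with _ | ⟨x, l⟩
    · simp [M0, hv]
    · simp only [M0, Pi.add_apply, Pi.smul_apply, smul_eq_mul]
      have := hw x
      have h9 : b (g x) = b x + 1 + q * w x := by linarith
      rw [h9]
      ring
  rw [e7, e8, map_add, map_add, map_zsmul]
  refine ⟨ev.E i (M0 w v) + ev.O i (M1 h v), ?_⟩
  simp only [smul_eq_mul]
  ring

/-- Product with `d1 σ`, `σ` invariant. -/
theorem step_sigma (s : X → X → ℤ) (hs : ∀ x y, s (g x) (g y) = s x y)
    (v : List X → ℤ) (hv : v [] = 0) (hv1 : ∀ l, dl v l = 0) (hv2 : ∀ l, v (l.map g) = v l)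
    (i : ℕ) : (q : ℤ) ∣ ev.E (i + 1) (M2 (d1 s) v) := by
  have hdv : dl v = 0 := by funext l; exact hv1 l
  have e1 : M2 (d1 s) v = dl (M1 s v) := by
    funext l
    rw [dl_M1 s v hv, hdv]
    have : M1 s (0 : List X → ℤ) l = 0 := by
      rcases l with _ | ⟨x, _ | ⟨y, l⟩⟩ <;> simp [M1]
    rw [this, sub_zero]
  rw [e1, ev.E_dl i _ (M1_inv s v hs hv2)]
  exact dvd_mul_right _ _

/-- The product of the classes `d1 (t j)`. -/
def EE (t : ℕ → X → X → ℤ) : ℕ → List X → ℤ
  | 0 => one
  | n + 1 => M2 (d1 (t n)) (EE t n)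

theorem EE_nil (t : ℕ → X → X → ℤ) (n : ℕ) : EE t n [] = 0 := by
  cases n <;> rfl

theorem EE_dl (t : ℕ → X → X → ℤ) (n : ℕ) (l : List X) : dl (EE t n) l = 0 := by
  induction n generalizing l with
  | zero => exact dl_one l
  | succ n ih =>
    have hdv : dl (EE t n) = 0 := by funext l; exact ih l
    have e1 : EE t (n + 1) = dl (M1 (t n) (EE t n)) := by
      funext l
      rw [dl_M1 (t n) _ (EE_nil t n), hdv]
      have : M1 (t n) (0 : List X → ℤ) l = 0 := by
        rcases l with _ | ⟨x, _ | ⟨y, l⟩⟩ <;> simp [M1]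
      rw [this, sub_zero]
      rfl
    rw [e1, dl_dl]

theorem EE_inv (t : ℕ → X → X → ℤ)
    (ht : ∀ j x y z, d1 (t j) (g x) (g y) (g z) = d1 (t j) x y z)
    (n : ℕ) (l : List X) : EE t n (l.map g) = EE t n l := by
  induction n generalizing l with
  | zero =>
    rcases l with _ | ⟨x, _ | ⟨y, l⟩⟩ <;> rfl
  | succ n ih => exact M2_inv _ _ (ht n) ih l

/-- If `d1 (t j)` vanishes on triples of entries of `l` for some `j < n`, then `EE t n l = 0`. -/
theorem EE_vanish (t : ℕ → X → X → ℤ) (n j : ℕ) (hj : j < n) (l : List X)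
    (h : ∀ x ∈ l, ∀ y ∈ l, ∀ z ∈ l, d1 (t j) x y z = 0) : EE t n l = 0 := by
  induction n generalizing l with
  | zero => omega
  | succ n ih =>
    rcases l with _ | ⟨x, _ | ⟨y, _ | ⟨z, l⟩⟩⟩
    · rfl
    · rfl
    · rfl
    · simp only [EE, M2]
      rcases Nat.lt_or_ge j n with h1 | h1
      · rw [ih h1 (z :: l), mul_zero]
        intro x' hx' y' hy' z' hz'
        apply h
        · exact List.mem_cons_of_mem _ (List.mem_cons_of_mem _ hx')
        · exact List.mem_cons_of_mem _ (List.mem_cons_of_mem _ hy')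
        · exact List.mem_cons_of_mem _ (List.mem_cons_of_mem _ hz')
      · have : j = n := by omega
        subst this
        rw [h x (by simp) y (by simp) z (by simp), zero_mul]

/-- **The congruence**: with `t j = p h - s j`, the product of `n` classes evaluates to `p ^ n`
modulo `q`. -/
theorem congruence (hq : q ≠ 0) (hb : ∀ x, (q : ℤ) ∣ b (g x) - b x - 1)
    (hc : ∀ x y, b (g y) - b (g x) + q * h (g x) (g y) = b y - b x + q * h x y)
    (p : ℤ) (s : ℕ → X → X → ℤ) (hs : ∀ j x y, s j (g x) (g y) = s j x y) (n : ℕ) :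
    (q : ℤ) ∣ ev.E n (EE (fun j x y => p * h x y - s j x y) n) - p ^ n := by
  set t : ℕ → X → X → ℤ := fun j x y => p * h x y - s j x y with ht
  have hq' : (q : ℤ) ≠ 0 := by exact_mod_cast hq
  -- invariance of `d1 h`
  have hh : ∀ x y z, d1 h (g x) (g y) (g z) = d1 h x y z := by
    intro x y z
    apply mul_left_cancel₀ hq'
    simp only [d1]
    have h1 := hc x y
    have h2 := hc y z
    have h3 := hc x z
    linarith
  have hti : ∀ j x y z, d1 (t j) (g x) (g y) (g z) = d1 (t j) x y z := by
    intro j x y z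
    have h1 := hh x y z
    simp only [d1] at h1
    simp only [d1, ht, hs]
    linear_combination p * h1
  have hsplit : ∀ j v, M2 (d1 (t j)) v = p • M2 (d1 h) v - M2 (d1 (s j)) v := by
    intro j v
    funext l
    rcases l with _ | ⟨x, _ | ⟨y, _ | ⟨z, l⟩⟩⟩
    · simp [M2]
    · simp [M2]
    · simp [M2]
    · simp only [M2, ht, d1, Pi.sub_apply, Pi.smul_apply, smul_eq_mul]
      ring
  induction n with
  | zero =>
    have : EE t 0 = one := rfl
    rw [this, ev.E_one]
    simp
  | succ n ih =>
    have e1 : EE t (n + 1) = M2 (d1 (t n)) (EE t n) := rfl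
    rw [e1, hsplit, map_sub, map_zsmul, smul_eq_mul]
    have h1 := step_h ev b h hq hb hc (EE t n) (EE_nil t n) (EE_dl t n) (EE_inv t hti n) n
    have h2 := step_sigma ev (s n) (hs n) (EE t n) (EE_nil t n) (EE_dl t n) (EE_inv t hti n) n
    obtain ⟨k1, hk1⟩ := h1
    obtain ⟨k2, hk2⟩ := h2
    obtain ⟨k3, hk3⟩ := ih
    refine ⟨p * k1 - k2 + p * k3, ?_⟩
    rw [hk2]
    linear_combination p * hk1 + p * hk3

end main

end Pool.Agent.helper69.LensC
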