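import Pool.Agent.helper69.LensGeom

/-!
# The core theorem

If `ℂ^m \ {0}` is covered by `n < m` open sets `U j`, invariant under multiplication by
`w = exp (2 π i / q)`, each carrying a continuous unit function `s j` with
`s j (w x) = w ^ p * s j x`, then `q ∣ p ^ n`.
-/

set_option autoImplicit false

namespace Pool.Agent.helper69.LensC

open Real Filter Topology

variable {m : ℕ}

/-- the primitive root of unity `exp (2 π i / r)` -/
noncomputable def zeta (r : ℕ) : ℂ := Complex.exp (2 * π * Complex.I / r)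

theorem zeta_ne_zero (r : ℕ) : zeta r ≠ 0 := Complex.exp_ne_zero _

theorem zeta_prim (r : ℕ) (hr : r ≠ 0) : IsPrimitiveRoot (zeta r) r :=
  Complex.isPrimitiveRoot_exp r hr

theorem zeta_eq (r : ℕ) : zeta r = Complex.exp (((2 * π / r : ℝ) : ℂ) * Complex.I) := by
  unfold zeta
  congr 1
  push_cast
  ring

theorem norm_zeta (r : ℕ) : ‖zeta r‖ = 1 := by
  rw [zeta_eq, Complex.norm_exp_ofReal_mul_I]

theorem zeta_re (r : ℕ) : (zeta r).re = Real.cos (2 * π / r) := by
  rw [zeta_eq, Complex.exp_ofReal_mul_I_re]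

theorem zeta_re_nonneg (r : ℕ) (hr : 4 ≤ r) : 0 ≤ (zeta r).re := by
  rw [zeta_re]
  apply Real.cos_nonneg_of_neg_pi_div_two_le_of_le
  · have : 0 ≤ 2 * π / r := by positivity
    linarith [Real.pi_pos]
  · have hr' : (4 : ℝ) ≤ r := by exact_mod_cast hr
    rw [div_le_iff₀ (by linarith)]
    nlinarith [Real.pi_pos]

/-- the base points -/
noncomputable def ptt (x0 : XX m) (i : ℕ) : XX m :=
  if h : i < m then ⟨EuclideanSpace.single ⟨i, h⟩ (1 : ℂ), by
    intro h0
    have := congrArg (fun v : V m => v ⟨i, h⟩) h0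
    simp at this⟩
  else x0

theorem ptt_val (x0 : XX m) (i : ℕ) (h : i < m) :
    (ptt x0 i).1 = EuclideanSpace.single ⟨i, h⟩ (1 : ℂ) := by
  unfold ptt
  rw [dif_pos h]

theorem RR_add_left (c c' v : V m) : RR (c + c') v = RR c v + RR c' v := by
  unfold RR
  rw [← Finset.sum_add_distrib]
  apply Finset.sum_congr rfl
  intro j _
  simp [add_mul]

theorem RR_single_left (i : Fin m) (z : ℂ) (v : V m) :
    RR (EuclideanSpace.single i z) v = ((starRingEnd ℂ z) * v i).re := by
  unfold RR
  rw [Finset.sum_eq_single i]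
  · simp
  · intro j _ hj
    simp [hj]
  · simp

theorem RR_single_right (i : Fin m) (z : ℂ) (c : V m) :
    RR c (EuclideanSpace.single i z) = ((starRingEnd ℂ (c i)) * z).re := by
  unfold RR
  rw [Finset.sum_eq_single i]
  · simp
  · intro j _ hj
    simp [hj]
  · simp

/-- the lists occurring in the `i`-th cycle -/
def PP (i : ℕ) (l : List (XX m)) : Prop :=
  l.length = 2 * i ∧ ∃ c : V m, (∀ v ∈ l, 1 ≤ RR c v.1) ∧ (∀ v ∈ l, dist v.1 0 ≤ 1) ∧
    (∀ v ∈ l, ∀ j : Fin m, i ≤ j → v.1 j = 0) ∧ (∀ j : Fin m, i ≤ j → c j = 0)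

theorem PP_zero : PP (m := m) 0 [] :=
  ⟨rfl, 0, by simp, by simp, by simp, by simp⟩

theorem PP_succ (x0 : XX m) (w : ℂ) (hw : w ≠ 0) (hw1 : ‖w‖ = 1) (hw2 : 0 ≤ w.re) (i : ℕ)
    (l : List (XX m)) (a : ℕ) (hi : i < m) (h : PP i l) :
    PP (i + 1) ((gg w hw)^[a] (ptt x0 i) :: (gg w hw)^[a + 1] (ptt x0 i) :: l) := by
  obtain ⟨hl, c, h1, h2, h3, h4⟩ := h
  have hval : ∀ a, ((gg w hw)^[a] (ptt x0 i)).1 = EuclideanSpace.single ⟨i, hi⟩ (w ^ a) := by
    intro a
    rw [gg_iterate_val, ptt_val x0 i hi]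
    ext j
    by_cases hj : j = ⟨i, hi⟩
    · subst hj; simp
    · simp [hj]
  have hci : c ⟨i, hi⟩ = 0 := h4 ⟨i, hi⟩ le_rfl
  have hnorm : ∀ a, ‖w ^ a‖ = 1 := by intro a; rw [norm_pow, hw1, one_pow]
  have hcw : (starRingEnd ℂ) w * w = 1 := by
    rw [mul_comm, Complex.mul_conj, Complex.normSq_eq_norm_sq, hw1]
    norm_num
  have hca : (starRingEnd ℂ) (w ^ a) * w ^ a = 1 := by
    rw [mul_comm, Complex.mul_conj, Complex.normSq_eq_norm_sq, hnorm]
    norm_num
  refine ⟨by simp [hl]; ring, c + EuclideanSpace.single ⟨i, hi⟩ (w ^ a + w ^ (a + 1)), ?_, ?_, ?_, ?_⟩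
  · intro v hv
    rw [RR_add_left, RR_single_left]
    rcases List.mem_cons.mp hv with rfl | hv
    · rw [hval, RR_single_right, hci]
      have : (starRingEnd ℂ) (w ^ a + w ^ (a + 1)) * (EuclideanSpace.single (⟨i, hi⟩ : Fin m) (w ^ a) : V m) ⟨i, hi⟩
          = 1 + (starRingEnd ℂ) w := by
        simp only [PiLp.single_apply, if_true, map_add, add_mul, pow_succ, map_mul]
        linear_combination hca + (starRingEnd ℂ) w * hca
      rw [this]
      simp
      exact hw2
    · rcases List.mem_cons.mp hv with rfl | hv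
      · rw [hval, RR_single_right, hci]
        have : (starRingEnd ℂ) (w ^ a + w ^ (a + 1)) *
            (EuclideanSpace.single (⟨i, hi⟩ : Fin m) (w ^ (a + 1)) : V m) ⟨i, hi⟩ = w + 1 := by
          simp only [PiLp.single_apply, if_true, map_add, add_mul, pow_succ, map_mul]
          linear_combination w * hca + ((starRingEnd ℂ) w * w) * hca + hcw
        rw [this]
        simp
        exact hw2
      · rw [h3 v hv ⟨i, hi⟩ le_rfl]
        have := h1 v hv
        simpa using this
  · intro v hv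
    rcases List.mem_cons.mp hv with rfl | hv
    · rw [hval, dist_zero_right, PiLp.norm_single, hnorm]
    · rcases List.mem_cons.mp hv with rfl | hv
      · rw [hval, dist_zero_right, PiLp.norm_single, hnorm]
      · exact h2 v hv
  · intro v hv j hj
    have hj' : j ≠ ⟨i, hi⟩ := by
      rintro rfl
      simp at hj
    rcases List.mem_cons.mp hv with rfl | hv
    · rw [hval]; simp [hj']
    · rcases List.mem_cons.mp hv with rfl | hv
      · rw [hval]; simp [hj']
      · exact h3 v hv j (by omega)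
  · intro j hj
    have hj' : j ≠ ⟨i, hi⟩ := by
      rintro rfl
      simp at hj
    have := h4 j (by omega)
    simp [hj', this]

theorem PP_cons (x0 : XX m) (n : ℕ) (hn : n < m) (l : List (XX m)) (h : PP n l) :
    ∃ c : V m, ∀ v ∈ ptt x0 n :: l, v.1 ∈ HH c := by
  obtain ⟨hl, c, h1, h2, h3, h4⟩ := h
  have hcn : c ⟨n, hn⟩ = 0 := h4 ⟨n, hn⟩ le_rfl
  refine ⟨c + EuclideanSpace.single ⟨n, hn⟩ 1, ?_⟩
  intro v hv
  rcases List.mem_cons.mp hv with rfl | hv
  · rw [ptt_val x0 n hn]
    constructor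
    · rw [dist_zero_right, PiLp.norm_single]; simp
    · rw [RR_add_left, RR_single_left, RR_single_right, hcn]
      simp
  · refine ⟨h2 v hv, ?_⟩
    rw [RR_add_left, RR_single_left, h3 v hv ⟨n, hn⟩ le_rfl]
    simpa using h1 v hv

theorem cos_sub_arg (z w : ℂ) (hz : ‖z‖ = 1) (hw : ‖w‖ = 1) :
    Real.cos (Complex.arg z - Complex.arg w) = (z * (starRingEnd ℂ) w).re := by
  have hz0 : z ≠ 0 := by
    rintro rfl
    simp at hz
  have hw0 : w ≠ 0 := by
    rintro rfl
    simp at hw
  rw [Real.cos_sub, Complex.cos_arg hz0, Complex.cos_arg hw0, Complex.sin_arg, Complex.sin_arg,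
    hz, hw]
  simp

theorem exp_arg (z : ℂ) (hz : ‖z‖ = 1) : Complex.exp (Complex.arg z * Complex.I) = z := by
  have := Complex.norm_mul_exp_arg_mul_I z
  rwa [hz, Complex.ofReal_one, one_mul] at this

theorem arg_shift (q p : ℕ) (z z' : ℂ) (hz : ‖z‖ = 1) (hz' : ‖z'‖ = 1)
    (h : z' = zeta q ^ p * z) :
    ∃ k : ℤ, Complex.arg z' / (2 * π) = Complex.arg z / (2 * π) + p / q + k := by
  have h1 : Complex.exp (Complex.arg z' * Complex.I) =
      Complex.exp (p * (2 * π * Complex.I / q) + Complex.arg z * Complex.I) := by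
    rw [Complex.exp_add, exp_arg z' hz', exp_arg z hz, h, zeta, ← Complex.exp_nat_mul]
  obtain ⟨k, hk⟩ := Complex.exp_eq_exp_iff_exists_int.mp h1
  refine ⟨k, ?_⟩
  have h2 : ((Complex.arg z' : ℂ)) = p * (2 * π / q) + Complex.arg z + k * (2 * π) := by
    have hI : Complex.I ≠ 0 := Complex.I_ne_zero
    apply mul_right_cancel₀ hI
    rw [hk]
    ring
  have h3 : Complex.arg z' = p * (2 * π / q) + Complex.arg z + k * (2 * π) := by
    exact_mod_cast h2
  rw [h3]
  have := Real.pi_ne_zero
  field_simp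
  ring

/-- **The core theorem.** -/
theorem core (n q p : ℕ) (hq : 4 ≤ q) (hn : n < m)
    (U : ℕ → Set (XX m)) (s : ℕ → XX m → ℂ) (hU : ∀ j < n, IsOpen (U j))
    (hinv : ∀ j < n, ∀ x, gg (zeta q) (zeta_ne_zero q) x ∈ U j ↔ x ∈ U j)
    (hcov : ∀ x, ∃ j < n, x ∈ U j) (hs : ∀ j < n, ContinuousOn (s j) (U j))
    (hunit : ∀ j < n, ∀ x ∈ U j, ‖s j x‖ = 1)
    (heq : ∀ j < n, ∀ x ∈ U j, s j (gg (zeta q) (zeta_ne_zero q) x) = zeta q ^ p * s j x) :
    q ∣ p ^ n := by
  have hq0 : 0 < q := by omega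
  have hprim := zeta_prim q hq0.ne'
  let x0 : XX m := ⟨EuclideanSpace.single ⟨0, by omega⟩ (1 : ℂ), by
    intro h0
    have := congrArg (fun v : V m => v ⟨0, by omega⟩) h0
    simp at this⟩
  set g : XX m → XX m := gg (zeta q) (zeta_ne_zero q) with hgdef
  have hg : g^[q] = id := by
    funext x
    apply Subtype.ext
    rw [hgdef, gg_iterate_val, hprim.pow_eq_one, one_smul]
    rfl
  have hfree : ∀ (x : XX m) a, g^[a] x = x → q ∣ a := by
    intro x a h
    have h1 := congrArg Subtype.val h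
    rw [hgdef, gg_iterate_val] at h1
    have h2 : (zeta q ^ a - 1) • x.1 = 0 := by
      rw [sub_smul, one_smul, h1, sub_self]
    rcases smul_eq_zero.mp h2 with h3 | h3
    · exact hprim.dvd_of_pow_eq_one a (sub_eq_zero.mp h3)
    · exact absurd h3 x.2
  obtain ⟨b, hb1, hb2⟩ := exists_label g q hq0 hg hfree
  let al : ℕ → XX m → ℝ := fun j x => Complex.arg (s j x) / (2 * π)
  let sg : ℕ → XX m → XX m → ℤ := fun j =>
    if j < n then sig (U j) (al j) p q b else fun _ _ => 0
  have hsg : ∀ j x y, sg j (g x) (g y) = sg j x y := by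
    intro j x y
    by_cases hj : j < n
    · simp only [sg, if_pos hj]
      apply sig_inv g (U j) (al j) p q hq0 b hb1 (hinv j hj) _ hb2
      intro x hx
      apply arg_shift q p _ _ (hunit j hj x hx) (hunit j hj _ ((hinv j hj x).2 hx))
      exact heq j hj x hx
    · simp only [sg, if_neg hj]
  have hβ : ∀ l, l ≠ [] → bary x0 (l.map g) = g (bary x0 l) := fun l hl => bary_map _ _ x0 l hl
  have hcong := fun N => congruence (Ev.sub hg (ptt x0) (bary x0) hβ N) b (carry b) hq0.ne' hb2
    (carry_inv g q b hb1 hb2) p sg hsg n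
  -- the left-hand side vanishes for large `N`
  set t : ℕ → XX m → XX m → ℤ := fun j x y => (p : ℤ) * carry b x y - sg j x y with ht
  have hev : ∀ᶠ N in atTop,
      F q g (ptt x0) n (fun l => SN (bary x0) N (EE t n) (ptt x0 n :: l)) = 0 := by
    apply F_ev q g (ptt x0) PP n PP_zero _ n le_rfl
      (fun N l => SN (bary x0) N (EE t n) (ptt x0 n :: l))
    · intro l hl
      obtain ⟨c, hc⟩ := PP_cons x0 n hn l hl
      obtain ⟨ε, hε, hlist⟩ := exists_eps (HH c) (HH_compact c) (HH_zero c) n U s hU hcov hs hunit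
      -- the contraction factor
      let k : ℝ := 1 - 1 / (2 * n + 1)
      have hpos : (0 : ℝ) < 2 * n + 1 := by positivity
      have hk0 : 0 ≤ k := by
        have : 1 / (2 * (n : ℝ) + 1) ≤ 1 := by
          rw [div_le_one hpos]
          have : (0 : ℝ) ≤ n := by positivity
          linarith
        simp only [k]; linarith
      have hk1 : k < 1 := by
        have : 0 < 1 / (2 * (n : ℝ) + 1) := by positivity
        simp only [k]; linarith
      have hk : ∀ j : ℕ, 1 ≤ j → j ≤ 2 * n + 1 → (j - 1 : ℝ) ≤ k * j := by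
        intro j _ hj
        have hj' : (j : ℝ) ≤ 2 * n + 1 := by exact_mod_cast hj
        have : (j : ℝ) / (2 * n + 1) ≤ 1 := by
          rw [div_le_one hpos]
          exact hj'
        simp only [k]
        have h2 : (1 - 1 / (2 * (n : ℝ) + 1)) * j = j - j / (2 * n + 1) := by ring
        rw [h2]
        linarith
      have hlim : Tendsto (fun N : ℕ => k ^ N * 2) atTop (𝓝 (0 * 2)) :=
        (tendsto_pow_atTop_nhds_zero_of_lt_one hk0 hk1).mul_const 2
      rw [zero_mul] at hlim
      filter_upwards [hlim.eventually_lt_const hε] with N hN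
      apply SN_vanish x0 (2 * n + 1) k hk0 hk (HH c) (HH_mean c) (HH_zero c) N 2 (by norm_num)
      · simp [hl.1]
      · exact hc
      · intro x hx y hy
        rw [Subtype.dist_eq]
        have h1 := (hc x hx).1
        have h2 := (hc y hy).1
        have h3 := dist_triangle_right x.1 y.1 0
        linarith
      · intro l' hl' hH' hd'
        have hne : l' ≠ [] := by
          rintro rfl
          simp at hl'
        obtain ⟨j, hj, hjU, hjs⟩ := hlist l' hne hH' (fun x hx y hy => lt_of_le_of_lt (hd' x hx y hy) hN)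
        apply EE_vanish t n j hj
        intro x hx y hy z hz
        have hcos : ∀ x ∈ l', ∀ y ∈ l', 0 < Real.cos (2 * π * (al j y - al j x)) := by
          intro x hx y hy
          have h1 := hjs x hx y hy
          rw [← cos_sub_arg _ _ (hunit j hj y (hjU y hy)) (hunit j hj x (hjU x hx))] at h1
          have h2 : 2 * π * (al j y - al j x) = Complex.arg (s j y) - Complex.arg (s j x) := by
            simp only [al]
            have := Real.pi_ne_zero
            field_simp
          rw [h2]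
          exact h1
        have h4 := d1_eq_zero (U j) (al j) p q hq0 b x y z (hjU x hx) (hjU y hy) (hjU z hz)
          (hcos x hx y hy) (hcos y hy z hz) (hcos x hx z hz)
        simp only [d1] at h4 ⊢
        simp only [ht, sg, if_pos hj]
        exact h4
    · intro i l a hi hl
      exact PP_succ x0 _ (zeta_ne_zero q) (norm_zeta q) (zeta_re_nonneg q hq) i l a (by omega) hl
  obtain ⟨N, hN⟩ := hev.exists
  have h1 := hcong N
  have h2 : (Ev.sub hg (ptt x0) (bary x0) hβ N).E n (EE t n) = 0 := hN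
  rw [h2, zero_sub, dvd_neg] at h1
  exact_mod_cast h1

end Pool.Agent.helper69.LensC
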