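import Pool.Agent.helper69.LensNum

/-!
# Geometry: barycentric subdivision shrinks, and the core theorem
-/

set_option autoImplicit false

namespace Pool.Agent.helper69.LensC

open Real Filter Topology

/-- the ambient space `ℂ^m` -/
abbrev V (m : ℕ) := EuclideanSpace ℂ (Fin m)

/-- nonzero vectors -/
abbrev XX (m : ℕ) := {v : V m // v ≠ 0}

variable {m : ℕ}

/-- the mean of a list of vectors -/
noncomputable def mean (l : List (V m)) : V m := ((l.length : ℂ)⁻¹) • l.sum

theorem norm_sum_le (l : List (V m)) (r : ℝ) (h : ∀ x ∈ l, ‖x‖ ≤ r) : ‖l.sum‖ ≤ l.length * r := by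
  induction l with
  | nil => simp
  | cons a l ih =>
    rw [List.sum_cons, List.length_cons]
    have h1 := norm_add_le a l.sum
    have h2 := ih (fun x hx => h x (List.mem_cons_of_mem _ hx))
    have h3 := h a List.mem_cons_self
    push_cast
    linarith

theorem sum_map_sub (l : List (V m)) (c : V m) :
    (l.map (fun x => x - c)).sum = l.sum - (l.length : ℂ) • c := by
  induction l with
  | nil => simp
  | cons a l ih =>
    rw [List.map_cons, List.sum_cons, ih, List.sum_cons, List.length_cons]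
    push_cast
    rw [add_smul, one_smul]
    abel

theorem mean_sub (l : List (V m)) (hl : l ≠ []) (c : V m) :
    mean l - c = ((l.length : ℂ)⁻¹) • (l.map (fun x => x - c)).sum := by
  have hn : (l.length : ℂ) ≠ 0 := by
    have : l.length ≠ 0 := by
      intro h
      exact hl (List.length_eq_zero_iff.mp h)
    exact_mod_cast this
  rw [sum_map_sub, smul_sub, smul_smul, inv_mul_cancel₀ hn, one_smul]
  rfl

theorem norm_mean_sub_le (l : List (V m)) (hl : l ≠ []) (c : V m) (r : ℝ)
    (h : ∀ x ∈ l, dist x c ≤ r) : dist (mean l) c ≤ r := by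
  rw [dist_eq_norm, mean_sub l hl c, norm_smul]
  have hn : (0 : ℝ) < l.length := by
    have : 0 < l.length := List.length_pos_iff.mpr hl
    exact_mod_cast this
  have h1 : ‖(l.map (fun x => x - c)).sum‖ ≤ l.length * r := by
    have := norm_sum_le (l.map (fun x => x - c)) r (by
      intro y hy
      rw [List.mem_map] at hy
      obtain ⟨x, hx, rfl⟩ := hy
      rw [← dist_eq_norm]
      exact h x hx)
    rwa [List.length_map] at this
  have h2 : ‖((l.length : ℂ)⁻¹)‖ = (l.length : ℝ)⁻¹ := by
    rw [norm_inv, Complex.norm_natCast]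
  rw [h2]
  rw [inv_mul_le_iff₀ hn]
  exact h1

theorem norm_sum_sub_le (l : List (V m)) (x : V m) (hx : x ∈ l) (d : ℝ)
    (h : ∀ y ∈ l, dist y x ≤ d) : ‖(l.map (fun y => y - x)).sum‖ ≤ (l.length - 1) * d := by
  induction l with
  | nil => simp at hx
  | cons a l ih =>
    rw [List.map_cons, List.sum_cons, List.length_cons]
    have hcast : (((l.length + 1 : ℕ) : ℝ) - 1) = l.length := by push_cast; ring
    rw [hcast]
    rcases List.mem_cons.mp hx with rfl | hx'
    · rw [sub_self, zero_add]
      have := norm_sum_le (l.map (fun y => y - x)) d (by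
        intro z hz
        rw [List.mem_map] at hz
        obtain ⟨y, hy, rfl⟩ := hz
        rw [← dist_eq_norm]
        exact h y (List.mem_cons_of_mem _ hy))
      rwa [List.length_map] at this
    · have h1 := ih hx' (fun y hy => h y (List.mem_cons_of_mem _ hy))
      have h2 := h a List.mem_cons_self
      rw [dist_eq_norm] at h2
      have h3 := norm_add_le (a - x) (l.map (fun y => y - x)).sum
      linarith

theorem dist_mean_le (l : List (V m)) (x : V m) (hx : x ∈ l) (d k : ℝ) (hd : 0 ≤ d)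
    (hk : (l.length - 1 : ℝ) ≤ k * l.length) (h : ∀ y ∈ l, dist y x ≤ d) :
    dist (mean l) x ≤ k * d := by
  have hl : l ≠ [] := List.ne_nil_of_mem hx
  rw [dist_eq_norm, mean_sub l hl x, norm_smul]
  have hn : (0 : ℝ) < l.length := by
    have : 0 < l.length := List.length_pos_iff.mpr hl
    exact_mod_cast this
  have h2 : ‖((l.length : ℂ)⁻¹)‖ = (l.length : ℝ)⁻¹ := by
    rw [norm_inv, Complex.norm_natCast]
  rw [h2, inv_mul_le_iff₀ hn]
  have h3 := norm_sum_sub_le l x hx d h
  have h4 := mul_le_mul_of_nonneg_right hk hd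
  linarith

/-- sets closed under means of lists -/
def MeanClosed (H : Set (V m)) : Prop := ∀ l : List (V m), l ≠ [] → (∀ x ∈ l, x ∈ H) → mean l ∈ H

open Classical in
/-- the barycentre of a list of nonzero vectors (with a harmless convention if the mean is zero) -/
noncomputable def bary (x0 : XX m) (l : List (XX m)) : XX m :=
  if h : mean (l.map Subtype.val) ≠ 0 then ⟨mean (l.map Subtype.val), h⟩ else l.headD x0

theorem bary_val (x0 : XX m) (l : List (XX m)) (h : mean (l.map Subtype.val) ≠ 0) :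
    (bary x0 l).1 = mean (l.map Subtype.val) := by
  unfold bary
  rw [dif_pos h]

/-- multiplication by `w` -/
noncomputable def gg (w : ℂ) (hw : w ≠ 0) (x : XX m) : XX m := ⟨w • x.1, smul_ne_zero hw x.2⟩

theorem gg_val (w : ℂ) (hw : w ≠ 0) (x : XX m) : (gg w hw x).1 = w • x.1 := rfl

theorem gg_iterate_val (w : ℂ) (hw : w ≠ 0) (a : ℕ) (x : XX m) :
    ((gg w hw)^[a] x).1 = w ^ a • x.1 := by
  induction a with
  | zero => simp
  | succ a ih => rw [Function.iterate_succ_apply', gg_val, ih, smul_smul, pow_succ']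

theorem mean_map (w : ℂ) (l : List (V m)) : mean (l.map (fun x => w • x)) = w • mean l := by
  unfold mean
  have h : (l.map (fun x => w • x)).sum = w • l.sum := by
    induction l with
    | nil => simp
    | cons a l ih => rw [List.map_cons, List.sum_cons, ih, List.sum_cons, smul_add]
  rw [h, List.length_map, smul_comm]

theorem bary_map (w : ℂ) (hw : w ≠ 0) (x0 : XX m) (l : List (XX m)) (hl : l ≠ []) :
    bary x0 (l.map (gg w hw)) = gg w hw (bary x0 l) := by
  have h : mean ((l.map (gg w hw)).map Subtype.val) = w • mean (l.map Subtype.val) := by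
    rw [← mean_map, List.map_map, List.map_map]
    rfl
  by_cases h0 : mean (l.map Subtype.val) = 0
  · have h1 : mean ((l.map (gg w hw)).map Subtype.val) = 0 := by rw [h, h0, smul_zero]
    unfold bary
    rw [dif_neg (not_not.mpr h1), dif_neg (not_not.mpr h0)]
    rcases l with _ | ⟨a, l⟩
    · exact absurd rfl hl
    · rfl
  · have h1 : mean ((l.map (gg w hw)).map Subtype.val) ≠ 0 := by
      rw [h]
      exact smul_ne_zero hw h0
    apply Subtype.ext
    rw [bary_val x0 _ h1, gg_val, bary_val x0 _ h0, h]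

/-- One subdivision shrinks. -/
theorem sd_vanish (x0 : XX m) (K : ℕ) (k d : ℝ) (hk0 : 0 ≤ k) (hd : 0 ≤ d)
    (hk : ∀ j : ℕ, 1 ≤ j → j ≤ K → (j - 1 : ℝ) ≤ k * j) (n : ℕ) :
    n ≤ K → ∀ (H : Set (V m)), MeanClosed H → (0 : V m) ∉ H → ∀ l : List (XX m), l.length = n →
      (∀ x ∈ l, x.1 ∈ H) → (∀ x ∈ l, ∀ y ∈ l, dist x y ≤ d) → ∀ u : List (XX m) → ℤ,
      (∀ l' : List (XX m), l'.length = n → (∀ x ∈ l', x.1 ∈ H) →
        (∀ x ∈ l', ∀ y ∈ l', dist x y ≤ k * d) → u l' = 0) → sd (bary x0) n u l = 0 := by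
  induction n with
  | zero =>
    intro _ H _ _ l hl h1 _ u hu
    obtain rfl := List.length_eq_zero_iff.mp hl
    exact hu [] rfl h1 (by intro x hx; simp at hx)
  | succ n ih =>
    intro hn H hH h0 l hl h1 h2 u hu
    rw [sd_succ]
    have hne : l ≠ [] := by
      rintro rfl
      simp at hl
    have hne' : l.map Subtype.val ≠ [] := fun h => hne (List.map_eq_nil_iff.mp h)
    have hmem : mean (l.map Subtype.val) ∈ H := by
      apply hH _ hne'
      intro x hx
      rw [List.mem_map] at hx
      obtain ⟨y, hy, rfl⟩ := hx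
      exact h1 y hy
    have hm0 : mean (l.map Subtype.val) ≠ 0 := fun h => h0 (h ▸ hmem)
    have hb := bary_val x0 l hm0
    have hbd : ∀ x ∈ l, dist x (bary x0 l) ≤ k * d := by
      intro x hx
      rw [dist_comm, Subtype.dist_eq, hb]
      apply dist_mean_le _ _ (List.mem_map_of_mem hx) d k hd
      · rw [List.length_map, hl]
        exact hk (n + 1) (by omega) hn
      · intro y hy
        rw [List.mem_map] at hy
        obtain ⟨z, hz, rfl⟩ := hy
        exact h2 z hz x hx
    apply dl_eq_zero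
    intro l' hs hlen
    let H' : Set (V m) := {v | v ∈ H ∧ dist v (bary x0 l).1 ≤ k * d}
    apply ih (by omega) H' _ _ l' (by omega)
    · intro x hx
      exact ⟨h1 x (hs.subset hx), hbd x (hs.subset hx)⟩
    · intro x hx y hy
      exact h2 x (hs.subset hx) y (hs.subset hy)
    · intro l'' hlen'' hH'' hd''
      apply hu
      · simp [hlen'']
      · intro x hx
        rcases List.mem_cons.mp hx with rfl | hx
        · rw [hb]; exact hmem
        · exact (hH'' x hx).1
      · intro x hx y hy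
        rcases List.mem_cons.mp hx with rfl | hx
        · rcases List.mem_cons.mp hy with rfl | hy
          · rw [dist_self]; positivity
          · rw [dist_comm]; exact (hH'' y hy).2
        · rcases List.mem_cons.mp hy with rfl | hy
          · exact (hH'' x hx).2
          · exact hd'' x hx y hy
    · intro L hL hLH
      refine ⟨hH L hL (fun x hx => (hLH x hx).1), ?_⟩
      exact norm_mean_sub_le L hL _ _ (fun x hx => (hLH x hx).2)
    · intro h
      exact h0 h.1

/-- Iterated subdivision shrinks. -/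
theorem SN_vanish (x0 : XX m) (n : ℕ) (k : ℝ) (hk0 : 0 ≤ k)
    (hk : ∀ j : ℕ, 1 ≤ j → j ≤ n → (j - 1 : ℝ) ≤ k * j) (H : Set (V m)) (hH : MeanClosed H)
    (h0 : (0 : V m) ∉ H) (N : ℕ) : ∀ d : ℝ, 0 ≤ d → ∀ l : List (XX m), l.length = n →
      (∀ x ∈ l, x.1 ∈ H) → (∀ x ∈ l, ∀ y ∈ l, dist x y ≤ d) → ∀ u : List (XX m) → ℤ,
      (∀ l' : List (XX m), l'.length = n → (∀ x ∈ l', x.1 ∈ H) →
        (∀ x ∈ l', ∀ y ∈ l', dist x y ≤ k ^ N * d) → u l' = 0) → SN (bary x0) N u l = 0 := by
  induction N with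
  | zero =>
    intro d hd l hl h1 h2 u hu
    rw [SN_zero]
    apply hu l hl h1
    simpa using h2
  | succ N ih =>
    intro d hd l hl h1 h2 u hu
    rw [SN_succ]
    unfold S
    rw [hl]
    apply sd_vanish x0 n k d hk0 hd hk n le_rfl H hH h0 l hl h1 h2
    intro l' hl' h1' h2'
    apply ih (k * d) (by positivity) l' hl' h1' h2'
    intro l'' hl'' h1'' h2''
    apply hu l'' hl'' h1''
    intro x hx y hy
    have := h2'' x hx y hy
    rw [pow_succ]
    linarith

/-- the pairing used for half spaces -/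
noncomputable def RR (c v : V m) : ℝ := ∑ j, ((starRingEnd ℂ (c j)) * v j).re

theorem RR_add (c v w : V m) : RR c (v + w) = RR c v + RR c w := by
  unfold RR
  rw [← Finset.sum_add_distrib]
  apply Finset.sum_congr rfl
  intro j _
  simp [mul_add]

theorem RR_smul (c v : V m) (r : ℝ) : RR c ((r : ℂ) • v) = r * RR c v := by
  unfold RR
  rw [Finset.mul_sum]
  apply Finset.sum_congr rfl
  intro j _
  simp
  ring

theorem RR_zero (c : V m) : RR c 0 = 0 := by simp [RR]

theorem RR_continuous (c : V m) : Continuous (RR c) := by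
  unfold RR
  fun_prop

theorem RR_sum_ge (c : V m) (l : List (V m)) (h : ∀ x ∈ l, 1 ≤ RR c x) :
    (l.length : ℝ) ≤ RR c l.sum := by
  induction l with
  | nil => simp [RR_zero]
  | cons a l ih =>
    rw [List.sum_cons, RR_add, List.length_cons]
    have h1 := h a List.mem_cons_self
    have h2 := ih (fun x hx => h x (List.mem_cons_of_mem _ hx))
    push_cast
    linarith

/-- the truncated half space -/
def HH (c : V m) : Set (V m) := {v | dist v 0 ≤ 1 ∧ 1 ≤ RR c v}

theorem HH_mean (c : V m) : MeanClosed (HH c) := by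
  intro l hl h
  refine ⟨norm_mean_sub_le l hl 0 1 (fun x hx => (h x hx).1), ?_⟩
  have h1 := RR_sum_ge c l (fun x hx => (h x hx).2)
  have hn : (0 : ℝ) < l.length := by
    have : 0 < l.length := List.length_pos_iff.mpr hl
    exact_mod_cast this
  have h2 : mean l = (((l.length : ℝ)⁻¹ : ℝ) : ℂ) • l.sum := by
    unfold mean
    push_cast
    rfl
  rw [h2, RR_smul, le_inv_mul_iff₀ hn]
  linarith

theorem HH_zero (c : V m) : (0 : V m) ∉ HH c := by
  rintro ⟨-, h⟩
  rw [RR_zero] at h
  linarith

theorem HH_compact (c : V m) : IsCompact (HH c) := by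
  apply Metric.isCompact_of_isClosed_isBounded
  · apply IsClosed.and
    · exact isClosed_le (by fun_prop) continuous_const
    · exact isClosed_le continuous_const (RR_continuous c)
  · apply (Metric.isBounded_closedBall (x := (0 : V m)) (r := 1)).subset
    intro v hv
    exact hv.1

/-- eventual vanishing on the cycles -/
theorem F_ev {X : Type*} (q : ℕ) (g : X → X) (pt : ℕ → X) (P : ℕ → List X → Prop) (n : ℕ)
    (hP0 : P 0 []) (hPs : ∀ i l a, i < n → P i l → P (i + 1) (g^[a] (pt i) :: g^[a + 1] (pt i) :: l))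
    (i : ℕ) (hi : i ≤ n) : ∀ (w : ℕ → List X → ℤ), (∀ l, P i l → ∀ᶠ N in atTop, w N l = 0) →
      ∀ᶠ N in atTop, F q g pt i (w N) = 0 := by
  induction i with
  | zero =>
    intro w hw
    filter_upwards [hw [] hP0] with N hN
    rw [F_zero, hN]
  | succ i ih =>
    intro w hw
    have h : ∀ a ∈ Finset.range q, ∀ᶠ N in atTop,
        F q g pt i (fun l => w N (g^[a] (pt i) :: g^[a + 1] (pt i) :: l)) = 0 := by
      intro a _
      apply ih (by omega) (fun N l => w N (g^[a] (pt i) :: g^[a + 1] (pt i) :: l))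
      intro l hl
      exact hw _ (hPs i l a (by omega) hl)
    have h2 := (Filter.eventually_all_finset (Finset.range q)).mpr h
    filter_upwards [h2] with N hN
    rw [F_succ]
    exact Finset.sum_eq_zero hN

/-- Lebesgue number statement. -/
theorem exists_eps (H : Set (V m)) (hH : IsCompact H) (h0 : (0 : V m) ∉ H) (n : ℕ)
    (U : ℕ → Set (XX m)) (s : ℕ → XX m → ℂ) (hU : ∀ j < n, IsOpen (U j))
    (hcov : ∀ x, ∃ j < n, x ∈ U j) (hs : ∀ j < n, ContinuousOn (s j) (U j))
    (hunit : ∀ j < n, ∀ x ∈ U j, ‖s j x‖ = 1) :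
    ∃ ε > 0, ∀ l : List (XX m), l ≠ [] → (∀ x ∈ l, x.1 ∈ H) →
      (∀ x ∈ l, ∀ y ∈ l, dist x y < ε) → ∃ j < n, (∀ x ∈ l, x ∈ U j) ∧
        ∀ x ∈ l, ∀ y ∈ l, 0 < (s j y * (starRingEnd ℂ) (s j x)).re := by
  have hK : IsCompact ((Subtype.val : XX m → V m) ⁻¹' H) := by
    have hemb : IsInducing (Subtype.val : XX m → V m) := IsInducing.subtypeVal
    rw [hemb.isCompact_preimage_iff]
    · exact hH
    · intro v hv
      refine ⟨⟨v, ?_⟩, rfl⟩
      rintro rfl
      exact h0 hv
  let c : {j : ℕ // j < n} × XX m → Set (XX m) := fun i =>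
    U i.1.1 ∩ (s i.1.1) ⁻¹' Metric.ball (s i.1.1 i.2) (1 / 2)
  have hc1 : ∀ i, IsOpen (c i) := by
    rintro ⟨⟨j, hj⟩, x0⟩
    exact (hs j hj).isOpen_inter_preimage (hU j hj) Metric.isOpen_ball
  have hc2 : ((Subtype.val : XX m → V m) ⁻¹' H) ⊆ ⋃ i, c i := by
    intro x _
    obtain ⟨j, hj, hx⟩ := hcov x
    rw [Set.mem_iUnion]
    exact ⟨(⟨j, hj⟩, x), hx, Metric.mem_ball_self (by norm_num)⟩
  obtain ⟨ε, hε, hleb⟩ := lebesgue_number_lemma_of_metric hK hc1 hc2
  refine ⟨ε, hε, ?_⟩
  intro l hl hlH hld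
  obtain ⟨x, hx⟩ := List.exists_mem_of_ne_nil l hl
  obtain ⟨⟨⟨j, hj⟩, x0⟩, hball⟩ := hleb x (hlH x hx)
  have hsub : ∀ y ∈ l, y ∈ c (⟨j, hj⟩, x0) := by
    intro y hy
    apply hball
    exact hld y hy x hx
  refine ⟨j, hj, fun y hy => (hsub y hy).1, ?_⟩
  intro y hy z hz
  have h1 : dist (s j y) (s j x0) < 1 / 2 := (hsub y hy).2
  have h2 : dist (s j z) (s j x0) < 1 / 2 := (hsub z hz).2
  have h3 : dist (s j z) (s j y) < 1 := by
    have := dist_triangle_right (s j z) (s j y) (s j x0)
    linarith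
  have u1 := hunit j hj y (hsub y hy).1
  have u2 := hunit j hj z (hsub z hz).1
  rw [dist_eq_norm] at h3
  have h4 : Complex.normSq (s j z - s j y) < 1 := by
    rw [Complex.normSq_eq_norm_sq]
    have := norm_nonneg (s j z - s j y)
    nlinarith
  rw [Complex.normSq_sub, Complex.normSq_eq_norm_sq, Complex.normSq_eq_norm_sq, u1, u2] at h4
  linarith

end Pool.Agent.helper69.LensC
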