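import Pool.Agent.helper69.LensCoch

/-!
# Labels of a free cyclic action, carries, and rounding cochains
-/

set_option autoImplicit false

namespace Pool.Agent.helper69.LensC

open Real

variable {X : Type*}

/-- A free action of a cyclic group of order `q` has an equivariant labelling by `0, …, q - 1`
modulo `q`. -/
theorem exists_label (g : X → X) (q : ℕ) (hq : 0 < q) (hg : g^[q] = id)
    (hfree : ∀ x a, g^[a] x = x → q ∣ a) :
    ∃ b : X → ℤ, (∀ x, 0 ≤ b x ∧ b x < q) ∧ ∀ x, (q : ℤ) ∣ b (g x) - b x - 1 := by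
  have hmul : ∀ k, g^[q * k] = id := by
    intro k
    rw [Function.iterate_mul, hg]
    exact Function.iterate_id k
  let r : Setoid X :=
    { r := fun x y => ∃ a : ℕ, y = g^[a] x
      iseqv :=
        { refl := fun x => ⟨0, rfl⟩
          symm := by
            rintro x y ⟨a, rfl⟩
            refine ⟨q * a - a, ?_⟩
            rw [← Function.iterate_add_apply, Nat.sub_add_cancel (Nat.le_mul_of_pos_left a hq), hmul]
            rfl
          trans := by
            rintro x y z ⟨a, rfl⟩ ⟨c, rfl⟩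
            exact ⟨c + a, (Function.iterate_add_apply g c a x).symm⟩ } }
  have hex : ∀ x : X, ∃ a : ℕ, x = g^[a] (Quotient.out (Quotient.mk r x)) := by
    intro x
    have h : r.r (Quotient.out (Quotient.mk r x)) x := by
      have := Quotient.exact (Quotient.out_eq (Quotient.mk r x))
      exact this
    exact h
  choose a ha using hex
  have hrep : ∀ x, Quotient.mk r (g x) = Quotient.mk r x := by
    intro x
    apply Quotient.sound
    exact r.symm ⟨1, rfl⟩
  have key : ∀ x, (q : ℤ) ∣ (a (g x) : ℤ) - a x - 1 := by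
    intro x
    have h1 := ha (g x)
    rw [hrep] at h1
    set y := Quotient.out (Quotient.mk r x) with hy
    have h2 : g x = g^[a x + 1] y := by
      rw [Function.iterate_succ_apply', ← ha x]
    replace h1 : g^[a x + 1] y = g^[a (g x)] y := h2.symm.trans h1
    have h3 : g^[(q * (a x + 1) - (a x + 1)) + a (g x)] y = y := by
      rw [Function.iterate_add_apply, ← h1, ← Function.iterate_add_apply,
        Nat.sub_add_cancel (Nat.le_mul_of_pos_left _ hq), hmul]
      rfl
    have h4 := hfree _ _ h3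
    have h5 : ((q * (a x + 1) - (a x + 1) + a (g x) : ℕ) : ℤ) =
        q * (a x + 1) - (a x + 1) + a (g x) := by
      rw [Nat.cast_add, Nat.cast_sub (Nat.le_mul_of_pos_left _ hq)]
      push_cast
      ring
    have h6 : (q : ℤ) ∣ ((q * (a x + 1) - (a x + 1) + a (g x) : ℕ) : ℤ) := by exact_mod_cast h4
    rw [h5] at h6
    have h7 : (a (g x) : ℤ) - a x - 1 = (q * (a x + 1) - (a x + 1) + a (g x)) - q * (a x + 1) := by
      ring
    rw [h7]
    exact dvd_sub h6 (dvd_mul_right _ _)
  have hq' : (0 : ℤ) < q := by exact_mod_cast hq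
  refine ⟨fun x => (a x : ℤ) % q, fun x => ⟨Int.emod_nonneg _ hq'.ne', Int.emod_lt_of_pos _ hq'⟩,
    fun x => ?_⟩
  have h1 := key x
  have h2 : (q : ℤ) ∣ (a (g x) : ℤ) - (a (g x) : ℤ) % q := Int.dvd_self_sub_emod
  have h3 : (q : ℤ) ∣ (a x : ℤ) - (a x : ℤ) % q := Int.dvd_self_sub_emod
  have h4 : (a (g x) : ℤ) % q - (a x : ℤ) % q - 1 =
      ((a (g x) : ℤ) - a x - 1) - ((a (g x) : ℤ) - (a (g x) : ℤ) % q) +
      ((a x : ℤ) - (a x : ℤ) % q) := by ring
  rw [h4]
  exact dvd_add (dvd_sub h1 h2) h3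

/-- the carry -/
def carry (b : X → ℤ) (x y : X) : ℤ := if b y < b x then 1 else 0

theorem carry_inv (g : X → X) (q : ℕ) (b : X → ℤ) (hb : ∀ x, 0 ≤ b x ∧ b x < q)
    (hb2 : ∀ x, (q : ℤ) ∣ b (g x) - b x - 1) (x y : X) :
    b (g y) - b (g x) + q * carry b (g x) (g y) = b y - b x + q * carry b x y := by
  have range : ∀ x y : X, 0 ≤ b y - b x + q * carry b x y ∧ b y - b x + q * carry b x y < q := by
    intro x y
    have h1 := hb x
    have h2 := hb y
    unfold carry
    split_ifs with h <;> constructor <;> linarith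
  have r1 := range x y
  have r2 := range (g x) (g y)
  have d : (q : ℤ) ∣ (b (g y) - b (g x) + q * carry b (g x) (g y)) -
      (b y - b x + q * carry b x y) := by
    have h3 : (b (g y) - b (g x) + q * carry b (g x) (g y)) - (b y - b x + q * carry b x y) =
        (b (g y) - b y - 1) - (b (g x) - b x - 1) +
        q * (carry b (g x) (g y) - carry b x y) := by ring
    rw [h3]
    exact dvd_add (dvd_sub (hb2 y) (hb2 x)) (dvd_mul_right _ _)
  have h4 := Int.eq_zero_of_abs_lt_dvd d (by
    rw [abs_lt]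
    constructor <;> linarith [r1.1, r1.2, r2.1, r2.2])
  linarith

open Classical in
/-- the normalised phase -/
noncomputable def rho (U : Set X) (al : X → ℝ) (p : ℝ) (q : ℕ) (b : X → ℤ) (x : X) : ℝ :=
  if x ∈ U then Int.fract (al x - p * b x / q) else 0

theorem rho_inv (g : X → X) (U : Set X) (al : X → ℝ) (p : ℕ) (q : ℕ) (hq : 0 < q) (b : X → ℤ)
    (hU : ∀ x, g x ∈ U ↔ x ∈ U)
    (hal : ∀ x ∈ U, ∃ k : ℤ, al (g x) = al x + p / q + k)
    (hb2 : ∀ x, (q : ℤ) ∣ b (g x) - b x - 1) (x : X) :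
    rho U al p q b (g x) = rho U al p q b x := by
  unfold rho
  by_cases hx : x ∈ U
  · rw [if_pos hx, if_pos ((hU x).2 hx)]
    obtain ⟨k, hk⟩ := hal x hx
    obtain ⟨w, hw⟩ := hb2 x
    have hw' : (b (g x) : ℝ) = b x + 1 + q * w := by
      have : b (g x) = b x + 1 + q * w := by linarith
      rw [this]
      push_cast
      ring
    have hq' : (q : ℝ) ≠ 0 := by positivity
    have h1 : al (g x) - p * b (g x) / q = (al x - p * b x / q) + ((k - p * w : ℤ) : ℝ) := by
      rw [hk, hw']
      push_cast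
      field_simp
      ring
    rw [h1, Int.fract_add_intCast]
  · rw [if_neg hx, if_neg (fun h => hx ((hU x).1 h))]

/-- the real 1-cochain -/
noncomputable def theta (U : Set X) (al : X → ℝ) (p : ℝ) (q : ℕ) (b : X → ℤ) (x y : X) : ℝ :=
  p * (b y - b x + q * carry b x y : ℤ) / q + rho U al p q b y - rho U al p q b x

/-- the invariant integral 1-cochain -/
noncomputable def sig (U : Set X) (al : X → ℝ) (p : ℝ) (q : ℕ) (b : X → ℤ) (x y : X) : ℤ :=
  round (theta U al p q b x y)

theorem sig_inv (g : X → X) (U : Set X) (al : X → ℝ) (p : ℕ) (q : ℕ) (hq : 0 < q) (b : X → ℤ)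
    (hb : ∀ x, 0 ≤ b x ∧ b x < q)
    (hU : ∀ x, g x ∈ U ↔ x ∈ U)
    (hal : ∀ x ∈ U, ∃ k : ℤ, al (g x) = al x + p / q + k)
    (hb2 : ∀ x, (q : ℤ) ∣ b (g x) - b x - 1) (x y : X) :
    sig U al p q b (g x) (g y) = sig U al p q b x y := by
  unfold sig theta
  rw [carry_inv g q b hb hb2, rho_inv g U al p q hq b hU hal hb2,
    rho_inv g U al p q hq b hU hal hb2]

theorem theta_eq (U : Set X) (al : X → ℝ) (p : ℕ) (q : ℕ) (hq : 0 < q) (b : X → ℤ)
    (x y : X) (hx : x ∈ U) (hy : y ∈ U) :
    ∃ k : ℤ, theta U al p q b x y = al y - al x + k := by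
  refine ⟨p * carry b x y - ⌊al y - p * b y / q⌋ + ⌊al x - p * b x / q⌋, ?_⟩
  unfold theta rho
  rw [if_pos hx, if_pos hy]
  have hq' : (q : ℝ) ≠ 0 := by positivity
  rw [Int.fract, Int.fract]
  push_cast
  field_simp
  ring

/-- small remainder -/
theorem abs_lt_quarter (U : Set X) (al : X → ℝ) (p : ℕ) (q : ℕ) (hq : 0 < q) (b : X → ℤ)
    (x y : X) (hx : x ∈ U) (hy : y ∈ U) (hc : 0 < Real.cos (2 * π * (al y - al x))) :
    |theta U al p q b x y - sig U al p q b x y| < 1 / 4 := by
  obtain ⟨k, hk⟩ := theta_eq U al p q hq b x y hx hy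
  set t := theta U al p q b x y - sig U al p q b x y with ht
  have h1 : |t| ≤ 1 / 2 := abs_sub_round _
  have h2 : Real.cos (2 * π * t) = Real.cos (2 * π * (al y - al x)) := by
    have : 2 * π * t = 2 * π * (al y - al x) + ((k - sig U al p q b x y : ℤ) : ℝ) * (2 * π) := by
      rw [ht, hk]
      push_cast
      ring
    rw [this, Real.cos_add_int_mul_two_pi]
  by_contra h3
  push Not at h3
  have h4 : Real.cos (2 * π * |t|) ≤ 0 := by
    apply Real.cos_nonpos_of_pi_div_two_le_of_le
    · nlinarith [Real.pi_pos]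
    · nlinarith [Real.pi_pos]
  have h5 : Real.cos (2 * π * |t|) = Real.cos (2 * π * t) := by
    rw [← Real.cos_abs (2 * π * t), abs_mul, abs_of_pos (by positivity : 0 < 2 * π)]
  rw [h5, h2] at h4
  linarith

/-- vanishing of the class representative on triples with close phases -/
theorem d1_eq_zero (U : Set X) (al : X → ℝ) (p : ℕ) (q : ℕ) (hq : 0 < q) (b : X → ℤ)
    (x y z : X) (hx : x ∈ U) (hy : y ∈ U) (hz : z ∈ U)
    (hc1 : 0 < Real.cos (2 * π * (al y - al x))) (hc2 : 0 < Real.cos (2 * π * (al z - al y)))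
    (hc3 : 0 < Real.cos (2 * π * (al z - al x))) :
    d1 (fun x y => (p : ℤ) * carry b x y - sig U al p q b x y) x y z = 0 := by
  have a1 := abs_lt_quarter U al p q hq b x y hx hy hc1
  have a2 := abs_lt_quarter U al p q hq b y z hy hz hc2
  have a3 := abs_lt_quarter U al p q hq b x z hx hz hc3
  have hq' : (q : ℝ) ≠ 0 := by positivity
  have key : ((d1 (fun x y => (p : ℤ) * carry b x y - sig U al p q b x y) x y z : ℤ) : ℝ) =
      (theta U al p q b y z - sig U al p q b y z) - (theta U al p q b x z - sig U al p q b x z) +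
      (theta U al p q b x y - sig U al p q b x y) := by
    simp only [d1, theta]
    push_cast
    field_simp
    ring
  rw [abs_lt] at a1 a2 a3
  have h1 : ((d1 (fun x y => (p : ℤ) * carry b x y - sig U al p q b x y) x y z : ℤ) : ℝ) < 1 := by
    rw [key]; linarith [a1.1, a1.2, a2.1, a2.2, a3.1, a3.2]
  have h2 : (-1 : ℝ) < ((d1 (fun x y => (p : ℤ) * carry b x y - sig U al p q b x y) x y z : ℤ) : ℝ) := by
    rw [key]; linarith [a1.1, a1.2, a2.1, a2.2, a3.1, a3.2]
  have h3 : d1 (fun x y => (p : ℤ) * carry b x y - sig U al p q b x y) x y z < 1 := by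
    exact_mod_cast h1
  have h4 : -1 < d1 (fun x y => (p : ℤ) * carry b x y - sig U al p q b x y) x y z := by
    exact_mod_cast h2
  omega

end Pool.Agent.helper69.LensC
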